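import Pool.Agent.H73.CTG.Stmts

/-!
Row EXP of the board `ctg`
-/

set_option autoImplicit false

open Set Filter Topology

namespace Pool.CTG

noncomputable def exp_phi {n : ℕ} (G : E n → ℝ) (z v : E n) : ℝ :=
  √(L G z v) + |fderiv ℝ G z v| + |fderiv ℝ G z (Complex.I • v)|

theorem exp_cont {n : ℕ} {f : E n → E n} {d : ℕ} {G : E n → ℝ} (hH : Hyp f d G)
    (hL : ContinuousOn (fun p : E n × E n => L G p.1 p.2) {p | p.1 ≠ 0}) :
    ContinuousOn (fun p : E n × E n => exp_phi G p.1 p.2) {p | p.1 ≠ 0} := by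
  have ho : IsOpen {z : E n | z ≠ 0} := isOpen_ne
  have h1 : ContinuousOn (fderiv ℝ G) {z : E n | z ≠ 0} :=
    hH.g2.continuousOn_fderiv_of_isOpen ho (by norm_num)
  have h2 : ContinuousOn (fun p : E n × E n => fderiv ℝ G p.1) {p | p.1 ≠ 0} :=
    h1.comp continuousOn_fst (fun p hp => hp)
  unfold exp_phi
  refine ((hL.sqrt).add (h2.clm_apply continuousOn_snd).abs).add ?_
  exact (h2.clm_apply (continuousOn_snd.const_smul Complex.I)).abs

theorem exp_smul {n : ℕ} {G : E n → ℝ} {z : E n}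
    (hL : ∀ (c : ℂ) (v : E n), L G z (c • v) = ‖c‖ ^ 2 * L G z v) (r : ℝ) (hr : 0 ≤ r) (v : E n) :
    exp_phi G z (r • v) = r * exp_phi G z v := by
  unfold exp_phi
  have h1 : (r • v : E n) = (r : ℂ) • v := (Complex.coe_smul r v).symm
  have h2 : L G z (r • v) = r ^ 2 * L G z v := by
    rw [h1, hL, Complex.norm_real, Real.norm_eq_abs, sq_abs]
  rw [h2, Real.sqrt_mul (sq_nonneg r), Real.sqrt_sq hr, smul_comm Complex.I r v, map_smul,
    map_smul, smul_eq_mul, smul_eq_mul, abs_mul, abs_mul, abs_of_nonneg hr]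
  ring

theorem EXP_thm (hLVH : LVHStmt) (_hLVP : LVPStmt) (hITE : ITEStmt) : EXPStmt := by
  intro n f d G K hH hK hKU
  obtain ⟨hinv, hz, hsm, _, hcont⟩ := hLVH n f d G hH
  have hphic := exp_cont hH hcont
  have hS : IsCompact (Metric.sphere (0 : E n) 1) := isCompact_sphere 0 1
  have hS0 : ∀ w ∈ Metric.sphere (0 : E n) 1, w ≠ 0 := by
    intro w hw h
    rw [mem_sphere_zero_iff_norm, h, norm_zero] at hw
    exact zero_ne_one hw
  -- lower bound
  have hpos : ∀ p ∈ K ×ˢ Metric.sphere (0 : E n) 1, 0 < exp_phi G p.1 p.2 := by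
    rintro ⟨z, v⟩ ⟨hzK, hv⟩
    have hz0 := (hKU hzK).1
    have hv0 := hS0 v hv
    show 0 < exp_phi G z v
    unfold exp_phi
    by_cases hm : ∃ c : ℂ, v = c • z
    · obtain ⟨c, rfl⟩ := hm
      have hc : c ≠ 0 := by
        rintro rfl
        exact hv0 (zero_smul _ _)
      obtain ⟨_, e2, e3⟩ := hz z hz0
      have h1 : c • z = c.re • z + c.im • (Complex.I • z) := by
        rw [← Complex.coe_smul c.re, ← Complex.coe_smul c.im, smul_smul, ← add_smul,
          Complex.re_add_im]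
      have h2 : Complex.I • (c • z) = (-c.im) • z + c.re • (Complex.I • z) := by
        rw [← Complex.coe_smul (-c.im), ← Complex.coe_smul c.re, smul_smul, smul_smul, ← add_smul]
        congr 1
        apply Complex.ext
        · simp
        · simp
      have h3 : fderiv ℝ G z (c • z) = 2 * c.re := by
        rw [h1, map_add, map_smul, map_smul, e2, e3, smul_eq_mul, smul_eq_mul]
        ring
      have h4 : fderiv ℝ G z (Complex.I • (c • z)) = -2 * c.im := by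
        rw [h2, map_add, map_smul, map_smul, e2, e3, smul_eq_mul, smul_eq_mul]
        ring
      rw [h3, h4]
      have h5 : c.re ≠ 0 ∨ c.im ≠ 0 := by
        by_contra h
        push Not at h
        exact hc (Complex.ext h.1 h.2)
      rcases h5 with h5 | h5
      · have h6 : 0 < |2 * c.re| := abs_pos.2 (mul_ne_zero two_ne_zero h5)
        have h7 := abs_nonneg (-2 * c.im)
        have h8 := Real.sqrt_nonneg (L G z (c • z))
        linarith
      · have h6 : 0 < |-2 * c.im| := abs_pos.2 (mul_ne_zero (by norm_num) h5)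
        have h7 := abs_nonneg (2 * c.re)
        have h8 := Real.sqrt_nonneg (L G z (c • z))
        linarith
    · have h1 := (hKU hzK).2 v hm
      have h2 := Real.sqrt_pos.2 h1
      have h3 := abs_nonneg (fderiv ℝ G z v)
      have h4 := abs_nonneg (fderiv ℝ G z (Complex.I • v))
      linarith
  obtain ⟨c₀, hc₀, hlow⟩ := (hK.prod hS).exists_forall_le'
    (hphic.mono (fun p hp => (hKU hp.1).1)) hpos
  -- upper bound
  obtain ⟨M, hM⟩ := (hS.prod hS).bddAbove_image (f := fun p : E n × E n => exp_phi G p.1 p.2)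
    (hphic.mono (fun p hp => hS0 p.1 hp.1))
  have hM' : ∀ w ∈ Metric.sphere (0 : E n) 1, ∀ v ∈ Metric.sphere (0 : E n) 1,
      exp_phi G w v ≤ max M 1 := by
    intro w hw v hv
    exact (hM ⟨(w, v), ⟨hw, hv⟩, rfl⟩).trans (le_max_left _ _)
  have hM1 : (0 : ℝ) < max M 1 := lt_of_lt_of_le one_pos (le_max_right _ _)
  have hscale : ∀ z : E n, z ≠ 0 → ∀ v : E n, ∃ u : E n, (v ≠ 0 → ‖u‖ = 1) ∧ v = ‖v‖ • u ∧
      exp_phi G z v = ‖v‖ * exp_phi G z u := by
    intro z hz0 v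
    by_cases hv : v = 0
    · refine ⟨0, fun h => absurd hv h, by rw [hv, norm_zero, zero_smul], ?_⟩
      rw [hv, norm_zero, zero_mul]
      have h1 := exp_smul (G := G) (z := z) (fun c v => hsm c z v hz0) 0 le_rfl 0
      rwa [zero_smul, zero_mul] at h1
    · have hv' : ‖v‖ ≠ 0 := norm_ne_zero_iff.2 hv
      have e1 : v = ‖v‖ • (‖v‖⁻¹ • v) := by
        rw [smul_smul, mul_inv_cancel₀ hv', one_smul]
      refine ⟨‖v‖⁻¹ • v, fun _ => ?_, e1, ?_⟩
      · rw [norm_smul, norm_inv, norm_norm, inv_mul_cancel₀ hv']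
      · have h1 := exp_smul (G := G) (z := z) (fun c v => hsm c z v hz0) ‖v‖ (norm_nonneg v)
          (‖v‖⁻¹ • v)
        rw [← e1] at h1
        exact h1
  have hup : ∀ w : E n, w ≠ 0 → ∀ v : E n, ‖w‖ * exp_phi G w v ≤ max M 1 * ‖v‖ := by
    intro w hw v
    have hw' : ‖w‖ ≠ 0 := norm_ne_zero_iff.2 hw
    have hwc : (‖w‖ : ℂ) ≠ 0 := Complex.ofReal_ne_zero.2 hw'
    obtain ⟨w', hw'd⟩ : ∃ w' : E n, w' = ‖w‖⁻¹ • w := ⟨_, rfl⟩
    have hw1 : ‖w'‖ = 1 := by
      rw [hw'd, norm_smul, norm_inv, norm_norm, inv_mul_cancel₀ hw']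
    have hws : w' ∈ Metric.sphere (0 : E n) 1 := mem_sphere_zero_iff_norm.2 hw1
    have hw0 := hS0 w' hws
    have e1 : w = (‖w‖ : ℂ) • w' := by
      rw [Complex.coe_smul, hw'd, smul_smul, mul_inv_cancel₀ hw', one_smul]
    obtain ⟨v', hv'd⟩ : ∃ v' : E n, v' = ‖w‖⁻¹ • v := ⟨_, rfl⟩
    have e2 : v = (‖w‖ : ℂ) • v' := by
      rw [Complex.coe_smul, hv'd, smul_smul, mul_inv_cancel₀ hw', one_smul]
    have h1 : exp_phi G w v = exp_phi G w' v' := by
      unfold exp_phi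
      have a1 := hinv (‖w‖ : ℂ) w' v' hwc hw0
      have a2 := hinv (‖w‖ : ℂ) w' (Complex.I • v') hwc hw0
      rw [← e1, ← e2] at a1
      rw [← e1, smul_comm (‖w‖ : ℂ) Complex.I v', ← e2] at a2
      rw [a1.1, a1.2, a2.2]
    have h2 : ‖v'‖ = ‖w‖⁻¹ * ‖v‖ := by
      rw [hv'd, norm_smul, norm_inv, norm_norm]
    obtain ⟨u, hu1, _, hu3⟩ := hscale w' hw0 v'
    by_cases hv0 : v' = 0
    · have h3 : ‖v‖ = 0 := by
        rw [e2, hv0, smul_zero, norm_zero]
      rw [h1, hu3, hv0, norm_zero, zero_mul, mul_zero, h3, mul_zero]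
    · have h3 := hM' w' hws u (mem_sphere_zero_iff_norm.2 (hu1 hv0))
      rw [h1, hu3, h2]
      calc ‖w‖ * (‖w‖⁻¹ * ‖v‖ * exp_phi G w' u) = ‖v‖ * exp_phi G w' u := by
            field_simp
        _ ≤ ‖v‖ * max M 1 := mul_le_mul_of_nonneg_left h3 (norm_nonneg v)
        _ = max M 1 * ‖v‖ := mul_comm _ _
  refine ⟨max M 1 / c₀, div_pos hM1 hc₀, ?_⟩
  intro k z hzK v
  have hz0 := (hKU hzK).1
  obtain ⟨_, _, hne, hder⟩ := hITE n f d G hH k
  obtain ⟨_, hder2⟩ := hder z (hKU hzK)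
  have hw := hne z hz0
  obtain ⟨w, hwd⟩ : ∃ w : E n, w = f^[k] z := ⟨_, rfl⟩
  obtain ⟨D, hD⟩ : ∃ D : E n →L[ℂ] E n, D = fderiv ℂ (f^[k]) z := ⟨_, rfl⟩
  rw [← hD, ← hwd] at hder2 ⊢
  rw [← hwd] at hw
  have hd1 : (1 : ℝ) ≤ (d : ℝ) ^ k := by
    have h1 : (1 : ℝ) ≤ (d : ℝ) := by
      have := hH.hd
      exact_mod_cast (by omega : 1 ≤ d)
    exact one_le_pow₀ h1
  have hs1 : √((d : ℝ) ^ k) ≤ (d : ℝ) ^ k := by
    have h1 := Real.sqrt_le_sqrt (show (d : ℝ) ^ k ≤ ((d : ℝ) ^ k) ^ 2 by nlinarith)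
    rwa [Real.sqrt_sq (by linarith)] at h1
  have hphi : √((d : ℝ) ^ k) * exp_phi G z v ≤ exp_phi G w (D v) := by
    unfold exp_phi
    have a1 := hder2 v
    have a2 := hder2 (Complex.I • v)
    rw [map_smul] at a2
    rw [a1.1, a1.2, a2.2, Real.sqrt_mul (by linarith), abs_mul, abs_mul,
      abs_of_nonneg (show (0 : ℝ) ≤ (d : ℝ) ^ k by linarith), mul_add, mul_add]
    have b1 := mul_le_mul_of_nonneg_right hs1 (abs_nonneg (fderiv ℝ G z v))
    have b2 := mul_le_mul_of_nonneg_right hs1 (abs_nonneg (fderiv ℝ G z (Complex.I • v)))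
    linarith
  have hlo : c₀ * ‖v‖ ≤ exp_phi G z v := by
    obtain ⟨u, hu1, _, hu3⟩ := hscale z hz0 v
    by_cases hv0 : v = 0
    · rw [hu3, hv0, norm_zero, mul_zero, zero_mul]
    · have h3 := hlow (z, u) ⟨hzK, mem_sphere_zero_iff_norm.2 (hu1 hv0)⟩
      rw [hu3, mul_comm]
      exact mul_le_mul_of_nonneg_left h3 (norm_nonneg v)
  have hfin := hup w hw (D v)
  have h1 : c₀ * (‖v‖ * ‖w‖ * √((d : ℝ) ^ k)) ≤ max M 1 * ‖D v‖ := by
    have b1 : √((d : ℝ) ^ k) * (c₀ * ‖v‖) ≤ exp_phi G w (D v) :=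
      (mul_le_mul_of_nonneg_left hlo (Real.sqrt_nonneg _)).trans hphi
    have b2 := mul_le_mul_of_nonneg_left b1 (norm_nonneg w)
    calc c₀ * (‖v‖ * ‖w‖ * √((d : ℝ) ^ k)) = ‖w‖ * (√((d : ℝ) ^ k) * (c₀ * ‖v‖)) := by ring
      _ ≤ ‖w‖ * exp_phi G w (D v) := b2
      _ ≤ max M 1 * ‖D v‖ := hfin
  rw [div_mul_eq_mul_div, le_div_iff₀ hc₀, mul_comm]
  exact h1

end Pool.CTG
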